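import Mathlib
import Pool.Agent.N675.RL.All
import Pool.Agent.N788.QP.SgMu

/-!
# Primes at fixed shifts and clusters of Möbius values at short distances

Products of values of the von Mangoldt function at affine forms with fixed constant terms, of
arbitrary bounded functions, and of values of the Möbius function at forms which come in clusters:
forms which are proportional in `n` and in the long variables and differ by short parameters, which
may grow arbitrarily slowly.

From the team: the theorem on correlations relative to the sieve majorant (`Pool.Agent.N675.RL`,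
project RL of helper675), the cluster theorem (`Pool.Agent.N675.M`, project M of helper675). From the
starting files: the bound for short exponential sums with the Möbius function
(`Pool.Agent.TH823.MRS`, the theorem of Matomäki, Radziwiłł and Tao). From Mathlib:
`ArithmeticFunction.moebius`, the Möbius function; `ArithmeticFunction.vonMangoldt`: the von Mangoldt
function; `Fintype.piFinset S`: the vectors `d` with `d j ∈ S j` for all `j`; `m.natAbs`: the
absolute value of the integer `m`.
-/

open Finset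

namespace Pool.Agent.Results.MP_0bfb7f_nt.MobiusClusters

/-- The value of the Möbius function at the absolute value of `m`, and `0` for `m = 0`. -/
noncomputable def mu (m : ℤ) : ℝ := ((ArithmeticFunction.moebius m.natAbs : ℤ) : ℝ)

/-- The cluster of the form `i₀`: the forms whose coefficients at `n` and at the long variables are
proportional to those of the form `i₀`. -/
def cluster {p k : ℕ} (a : Fin k → ℤ) (α : Fin k → Fin p → ℤ) (i₀ : Fin k) : Finset (Fin k) :=
  univ.filter fun i => ∀ u, a i₀ * α i u = a i * α i₀ u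

/-- There is a form `i₀` such that its coefficients at `n` and at the long variables are not
proportional to those of any prime form `b j n + ∑ u, β j u m u + e j` nor to those of any form
`a' j n + ∑ u, α' j u m u + ∑ g, L' j g y g` of an arbitrary factor, and its cluster has an odd
number of elements or contains a form which is not a combination of the other ones: there is a
direction in which it varies and the other ones do not. -/
def Good {p s t q k : ℕ} (b : Fin t → ℤ) (β : Fin t → Fin p → ℤ) (a' : Fin q → ℤ)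
    (α' : Fin q → Fin p → ℤ) (a : Fin k → ℤ) (α : Fin k → Fin p → ℤ) (L : Fin k → Fin s → ℤ) :
    Prop :=
  ∃ i₀, (∀ j, ∃ u, a i₀ * β j u ≠ b j * α i₀ u) ∧ (∀ j, ∃ u, a i₀ * α' j u ≠ a' j * α i₀ u) ∧
    (Odd (cluster a α i₀).card ∨ ∃ i₁ ∈ cluster a α i₀, ∃ (w : ℤ) (v : Fin p → ℤ) (v' : Fin s → ℤ),
      a i₁ * w + ∑ u, α i₁ u * v u + ∑ g, L i₁ g * v' g ≠ 0 ∧
      ∀ i ∈ cluster a α i₀, i ≠ i₁ → a i * w + ∑ u, α i u * v u + ∑ g, L i g * v' g = 0)

/-- No two of the affine functions `b j n + ∑ u, β j u m u + e j` are proportional. -/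
def NonProp {p t : ℕ} (b : Fin t → ℤ) (β : Fin t → Fin p → ℤ) (e : Fin t → ℤ) : Prop :=
  ∀ j j', j ≠ j' → ∀ c c' : ℤ, c * b j = c' * b j' → (∀ u, c * β j u = c' * β j' u) →
    c * e j = c' * e j' → c = 0 ∧ c' = 0

/-- The sum over `1 ≤ n ≤ x` of the product of the values of the von Mangoldt function at the
absolute values of `b j n + ∑ u, β j u m u + e j`, of the `f j` at
`a' j n + ∑ u, α' j u m u + ∑ g, L' j g y g` and of the Möbius function at
`a i n + ∑ u, α i u m u + ∑ g, L i g y g`. -/
noncomputable def corr {p s t q k : ℕ} (b : Fin t → ℤ) (β : Fin t → Fin p → ℤ) (e : Fin t → ℤ)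
    (a' : Fin q → ℤ) (α' : Fin q → Fin p → ℤ) (L' : Fin q → Fin s → ℤ)
    (a : Fin k → ℤ) (α : Fin k → Fin p → ℤ) (L : Fin k → Fin s → ℤ) (f : Fin q → ℤ → ℝ) (x : ℕ)
    (m : Fin p → ℤ) (y : Fin s → ℤ) : ℝ :=
  ∑ n ∈ Icc (1 : ℤ) x,
    (∏ j, ArithmeticFunction.vonMangoldt (b j * n + ∑ u, β j u * m u + e j).natAbs) *
    (∏ j, f j (a' j * n + ∑ u, α' j u * m u + ∑ g, L' j g * y g)) *
    ∏ i, mu (a i * n + ∑ u, α i u * m u + ∑ g, L i g * y g)

/-- Let `m` be `p` long variables and `y` be `s` short parameters. Let `b j n + ∑ u, β j u m u + e j`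
be `t` nonconstant affine functions of `n` and `m`, no two proportional. Let `a i ≠ 0` and let the
system of forms be good. For all `R` and `ε > 0` there is `K` such that for all `x ≥ K`, all lengths
`x / R ≤ X u ≤ R x` of the long variables, all lengths `K ≤ D g ≤ R x` of the short parameters and
ALL functions `f j` on the integers bounded by `1`, the sum over the boxes `1 ≤ y g ≤ D g` and
`1 ≤ m u ≤ X u` of the ABSOLUTE VALUES of the correlation sums is at most `ε x ∏ X u ∏ D g`. -/
theorem result : ∀ (p s t q k : ℕ) (b : Fin t → ℤ) (β : Fin t → Fin p → ℤ) (e : Fin t → ℤ)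
    (a' : Fin q → ℤ) (α' : Fin q → Fin p → ℤ) (L' : Fin q → Fin s → ℤ)
    (a : Fin k → ℤ) (α : Fin k → Fin p → ℤ) (L : Fin k → Fin s → ℤ),
    (∀ j, b j ≠ 0 ∨ β j ≠ 0) → NonProp b β e → (∀ i, a i ≠ 0) → Good b β a' α' a α L →
    ∀ (R : ℕ) (ε : ℝ), 0 < ε → ∃ K : ℕ, ∀ (x : ℕ) (X : Fin p → ℕ) (D : Fin s → ℕ),
      K ≤ x → (∀ u, x ≤ R * X u) → (∀ u, X u ≤ R * x) → (∀ g, K ≤ D g) → (∀ g, D g ≤ R * x) →
      ∀ f : Fin q → ℤ → ℝ, (∀ j m, |f j m| ≤ 1) →
      ∑ y ∈ Fintype.piFinset (fun g => Icc (1 : ℤ) (D g)),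
        ∑ m ∈ Fintype.piFinset (fun u => Icc (1 : ℤ) (X u)),
          |corr b β e a' α' L' a α L f x m y|
        ≤ ε * (x * (∏ u, (X u : ℝ)) * ∏ g, (D g : ℝ)) := by
  intro p s t q k b β e a' α' L' a α L hb hNP ha hg R ε hε
  have hg' : Pool.Agent.N675.RL.GoodE b β a' α' a α L Finset.univ := by
    obtain ⟨i₀, h1, h2, h3⟩ := hg
    exact ⟨i₀, Finset.mem_univ _, h1, h2, h3⟩
  exact Pool.Agent.N675.RL.rl_sub Pool.Agent.N788.QP.muR Pool.Agent.N788.QP.muR_le
    Pool.Agent.N788.QP.sg_mu b β e hb hNP a' α' L' a α L ha Finset.univ hg' R ε hε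

end Pool.Agent.Results.MP_0bfb7f_nt.MobiusClusters
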