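import Pool.Agent.N193.PS.Near
import Pool.Agent.N625.DY.M

/-!
# Correlations of the Möbius function with prime values of linear forms, shifts near the values of functions of non-integral index

From Mathlib: `ContDiffAt ℝ ⊤`: infinitely differentiable at a point; `iteratedDeriv m f`: the derivative of order `m`;
`⌊y⌋₊`: the integer part of `y`, and `0` for `y < 0`.

Method: the characteristic function of the integer part of `f n` is small at all frequencies which are not close to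
integers (van der Corput differencing and the inequality of Kusmin and Landau on dyadic blocks for all orders of
differencing, a discrete Fejer kernel for the passage to integer parts), and the values are not concentrated on short
intervals. The passage from such exponential sums to correlations is from the starting files (`Pool.Agent.W93.AU`,
`Pool.Agent.R459.LawNear`), in a generic form from `Pool.Agent.N625.DY` (helper625).
-/

set_option autoImplicit false

namespace Pool.Agent.Results.MP_0bfb7f_nt.NonIntegralOrderShifts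

open Finset Filter

/-- `f` is smoothly varying of index `c`: it is infinitely differentiable and positive for large arguments, and
`t ^ m f⁽ᵐ⁾(t) / f(t) → c (c - 1) ... (c - m + 1)` for every `m`. -/
def SmoothlyVarying (c : ℝ) (f : ℝ → ℝ) : Prop :=
  (∃ t₀ : ℝ, ∀ t > t₀, ContDiffAt ℝ ((⊤ : ℕ∞) : WithTop ℕ∞) f t ∧ 0 < f t) ∧
  ∀ m : ℕ, Tendsto (fun t => t ^ m * iteratedDeriv m f t / f t) atTop (nhds (∏ i ∈ range m, (c - i)))

/-- The Möbius function on the integers, `0` at the integers `m ≤ 0`, with complex values. -/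
noncomputable def mob (m : ℤ) : ℂ := if 1 ≤ m then ((ArithmeticFunction.moebius m.toNat : ℤ) : ℂ) else 0

/-- All the shifts `y'` at a distance of at most `(log N) ^ W` from `y` satisfy
`|∑ n ≤ x, θ l n * (∏ i, Λ (a l i * n + h l i)) * μ (α l * n + y')| ≤ N / (log N) ^ U` for all `l` and all `x ≤ B N / α l`. -/
def Small (B U W N : ℕ) {r L : ℕ} (α : Fin L → ℕ) (a h : Fin L → Fin r → ℕ) (θ : Fin L → ℕ → ℂ) (y : ℤ) : Prop :=
  ∀ y' : ℤ, ((|y' - y| : ℤ) : ℝ) ≤ Real.log N ^ W → ∀ l, ∀ x : ℕ, α l * x ≤ B * N →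
    ‖∑ n ∈ Icc 1 x, θ l n * (∏ i, (ArithmeticFunction.vonMangoldt (a l i * n + h l i) : ℂ)) * mob (α l * n + y')‖ ≤
      N / Real.log N ^ U

open Pool.Agent.N193.PS

open Classical in
/-- **(1)** Let `f` be smoothly varying of an index `c > 0` which is not an integer, and let `r`, `κ ≠ 0`, `B`, `T`, `W`, `U` and
`A` be fixed. Let `N` be large, let `x₀` be such that `f n ≤ N` for the integers `1 ≤ n ≤ x₀` and `N ≤ f x₀ log ^ A N`, and
let `|c₀| ≤ B N`. For each of at most `(log N) ^ T` indices `l` let `α l ≥ 1`, let `a l i n + h l i` for `i < r` be arbitrary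
linear forms with non-negative coefficients `≤ N ^ B`, and let `θ l : ℕ → ℂ` be an arbitrary function bounded by `1` (for
example `r = 1`, `Λ(n)` and `θ l = 1`). Then all the integers `1 ≤ n ≤ x₀`, with at most `x₀ / log ^ U N` exceptions, have the
following property: all the shifts `y'` at a distance of at most `(log N) ^ W` from `c₀ + κ ⌊f n⌋` satisfy
`|∑ m ≤ x, θ l m * (∏ i, Λ (a l i * m + h l i)) * μ (α l * m + y')| ≤ N / (log N) ^ U` for all `l` and all `x ≤ B N / α l`.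

**(2)** Part (1) applies to all the functions `f t = ∑ a z t ^ z.1 (log t) ^ z.2` (finite sums) with a leading term `z₀`
whose coefficient is positive and whose exponent `c = z₀.1` is positive and not an integer; for example to `n ^ c`. -/
theorem result :
    (∀ (c : ℝ) (f : ℝ → ℝ), 0 < c → (∀ m : ℕ, c ≠ m) → SmoothlyVarying c f →
      ∀ (κ : ℤ), κ ≠ 0 → ∀ (r B T W U A : ℕ), ∃ N₀ : ℕ, ∀ N : ℕ, N₀ ≤ N → ∀ x₀ : ℕ,
      (∀ n ∈ Icc 1 x₀, f n ≤ N) → (N : ℝ) ≤ Real.log N ^ A * f x₀ → ∀ c₀ : ℤ, |c₀| ≤ B * N →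
      ∀ L : ℕ, (L : ℝ) ≤ Real.log N ^ T → ∀ (α : Fin L → ℕ) (a h : Fin L → Fin r → ℕ) (θ : Fin L → ℕ → ℂ),
      (∀ l, 1 ≤ α l) → (∀ l i, a l i ≤ N ^ B ∧ h l i ≤ N ^ B) → (∀ l n, ‖θ l n‖ ≤ 1) →
        (((Icc 1 x₀).filter fun n : ℕ => ¬ Small B U W N α a h θ (c₀ + κ * (⌊f n⌋₊ : ℕ))).card : ℝ) ≤
          x₀ / Real.log N ^ U) ∧
    (∀ (F : Finset (ℝ × ℝ)) (a : ℝ × ℝ → ℝ) (z₀ : ℝ × ℝ), z₀ ∈ F → 0 < a z₀ →
      (∀ z ∈ F, z ≠ z₀ → z.1 < z₀.1 ∨ z.1 = z₀.1 ∧ z.2 < z₀.2) →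
      SmoothlyVarying z₀.1 (fun t => ∑ z ∈ F, a z * t ^ z.1 * Real.log t ^ z.2)) := by
  refine ⟨fun c f hc hn hf κ hκ r B T W U A => ?_, fun F a z₀ h1 h2 h3 => gp_sv F a z₀ h1 h2 h3⟩
  have hsv := sv_of c hc hn f hf
  obtain ⟨k₀, h0⟩ := Pool.Agent.N625.DY.cls_mob (hsv.clsV (A + 1) κ hκ).toCls B (T + 2 * r) W (U + 1)
  obtain ⟨k1, h1⟩ := Pool.Agent.N625.DY.vm_bd le_rfl B
  refine ⟨2 ^ (k₀ + k1) + 4, fun N hN x₀ hup hlow c₀ hc₀ L hL α a h θ hα hah hθ => ?_⟩
  rcases Nat.eq_zero_or_pos x₀ with rfl | hx0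
  · simp
  have hk2 : 0 < 2 ^ (k₀ + k1) := by positivity
  have hN4 : 4 ≤ N := by omega
  have hNk : N ≤ 2 ^ dg N := (lt_dg N).le
  have hL1 := log_pos4 N hN4
  have hLk := log_le_dg N (by omega)
  have hL0 : 0 < Real.log N := by linarith
  have hkk := dg_large (k₀ + k1) N (by omega)
  have hk1r : (1 : ℝ) ≤ dg N := hL1.trans hLk
  obtain ⟨hval, hsize⟩ := conv (fun m => iteratedDeriv m f) A N x₀ hN4
    (by simpa only [iteratedDeriv_zero] using hup) (by simpa only [iteratedDeriv_zero] using hlow)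
  have hBN : B * N ≤ B * 2 ^ dg N := Nat.mul_le_mul_left _ hNk
  have hNB : N ^ B ≤ 2 ^ (B * dg N) := by
    calc N ^ B ≤ (2 ^ dg N) ^ B := Nat.pow_le_pow_left hNk B
      _ = 2 ^ (B * dg N) := by rw [← pow_mul, mul_comm]
  obtain ⟨g, hg⟩ : ∃ g : Fin L → ℕ → ℂ, g = fun l n => if n ≤ B * 2 ^ dg N then
    θ l n * ∏ i, (ArithmeticFunction.vonMangoldt (a l i * n + h l i) : ℂ) else 0 := ⟨_, rfl⟩
  have hgb : ∀ l n, ‖g l n‖ ≤ (dg N : ℝ) ^ (T + 2 * r) := by
    intro l n
    rw [hg]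
    simp only
    split_ifs with hn
    · rw [norm_mul, norm_prod]
      have e1 : ∏ i, ‖(ArithmeticFunction.vonMangoldt (a l i * n + h l i) : ℂ)‖ ≤ ∏ _i : Fin r, (dg N : ℝ) ^ 2 := by
        apply prod_le_prod (fun _ _ => norm_nonneg _)
        intro i _
        rw [Complex.norm_real, Real.norm_eq_abs]
        exact h1 (dg N) (by omega) _ _ n ((hah l i).1.trans hNB) ((hah l i).2.trans hNB) hn
      rw [prod_const, card_univ, Fintype.card_fin, ← pow_mul] at e1
      calc _ ≤ 1 * (dg N : ℝ) ^ (2 * r) := mul_le_mul (hθ _ _) e1 (prod_nonneg fun _ _ => norm_nonneg _) zero_le_one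
        _ = (dg N : ℝ) ^ (2 * r) := one_mul _
        _ ≤ _ := pow_le_pow_right₀ hk1r (by omega)
    · rw [norm_zero]
      positivity
  have hLT : (L : ℝ) ≤ (dg N : ℝ) ^ (T + 2 * r) :=
    hL.trans ((pow_le_pow_left₀ hL0.le hLk T).trans (pow_le_pow_right₀ hk1r (by omega)))
  obtain ⟨Qp, hQp⟩ : ∃ Qp : ℕ → Prop, Qp = fun v => Pool.Agent.N625.DY.SmallM B (U + 1) W (2 ^ dg N) (dg N) α g
    (c₀ + κ * (v : ℕ)) := ⟨_, rfl⟩
  have key := count_of (A + 1) (dg N) x₀ hx0 hval hsize Qp (1 / (dg N : ℝ) ^ (U + 1))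
    (fun p hp => by
      rw [hQp]
      exact h0 (dg N) (by omega) p hp c₀ (by
        refine hc₀.trans (mul_le_mul_of_nonneg_left ?_ (Nat.cast_nonneg _))
        exact_mod_cast hNk) L hLT α g hα hgb)
  refine le_trans ?_ (key.trans (scale_x N U x₀ hN4))
  apply Nat.cast_le.2
  apply card_le_card
  intro n hn'
  rw [mem_filter] at hn' ⊢
  refine ⟨hn'.1, fun hcon => hn'.2 ?_⟩
  intro y' hy' l x hx
  rw [hQp, val_iter] at hcon
  have hy'' : |y' - (c₀ + κ * (⌊f n⌋₊ : ℕ))| ≤ ((dg N : ℕ) : ℤ) ^ W := by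
    have h3 : ((|y' - (c₀ + κ * (⌊f n⌋₊ : ℕ))| : ℤ) : ℝ) ≤ ((((dg N : ℕ) : ℤ) ^ W : ℤ) : ℝ) := by
      refine hy'.trans ?_
      push_cast
      exact pow_le_pow_left₀ hL0.le hLk W
    exact_mod_cast h3
  refine le_trans (le_of_eq ?_) ((hcon y' hy'' l x (hx.trans hBN)).trans (scale N U hN4))
  congr 1
  apply sum_congr rfl
  intro m hm
  rw [mem_Icc] at hm
  have hx' : x ≤ B * 2 ^ dg N := (Nat.le_mul_of_pos_left x (by have := hα l; omega)).trans (hx.trans hBN)
  rw [hg]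
  simp only [if_pos (hm.2.trans hx')]
  rfl

end Pool.Agent.Results.MP_0bfb7f_nt.NonIntegralOrderShifts
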