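import Pool.Agent.N384.MQ.Mob
import Pool.Agent.N384.MQ.Ex
import Pool.Agent.N384.MQ.Quot

/-!
# Correlations of the Möbius function with prime values of linear forms, shifts near residues with small Fourier coefficients

From Mathlib: `ZMod.stdAddChar`: the additive character `j ↦ exp (2 π i j / q)` of the integers modulo `q`; `ZMod.val`: the
least residue.

Method: a family of residues modulo `q` with small Fourier coefficients has small exponential sums at all real
frequencies which are not close to integers, and its least residues are not concentrated on short intervals. The passage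
from such exponential sums to correlations is from the starting files (`Pool.Agent.W93.AU`, `Pool.Agent.R459.LawNear`), in a
generic form from `Pool.Agent.N625.DY` (helper625). The fixed exponent `V` comes from a compactness argument. Examples: a
lemma of Ajtai, Iwaniec, Komlos, Pintz and Szemeredi on quotients by small primes, the Stepanov type lemma of Heath-Brown and
Konyagin for subgroups (library `H435R3.HBK`, `N825.FC`), and Weyl sums without losses (library `H373R2.NB`).
-/

set_option autoImplicit false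

namespace Pool.Agent.Results.MP_0bfb7f_nt.ResidueFamilies

open Finset Filter

/-- The Fourier coefficients of the residues `y i`, `i ∈ s`, modulo `q` at the nonzero frequencies are at most
`η` times the number of the residues: `|∑ i ∈ s, e(h y_i / q)| ≤ η |s|` for all `h ≠ 0` modulo `q`. -/
def Flat {ι : Type} (q : ℕ) [NeZero q] (η : ℝ) (s : Finset ι) (y : ι → ZMod q) : Prop :=
  ∀ h : ZMod q, h ≠ 0 → ‖∑ i ∈ s, (ZMod.stdAddChar (h * y i) : ℂ)‖ ≤ η * s.card

/-- The Möbius function on the integers, `0` at the integers `m ≤ 0`, with complex values. -/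
noncomputable def mob (m : ℤ) : ℂ := if 1 ≤ m then ((ArithmeticFunction.moebius m.toNat : ℤ) : ℂ) else 0

/-- All the shifts `y'` at a distance of at most `(log q) ^ W` from `z` satisfy
`|∑ n ≤ x, θ l n * (∏ i, Λ (b l i * n + h l i)) * μ (α l * n + y')| ≤ q / (log q) ^ U` for all `l` and all
`x ≤ q (log q) ^ B / α l`. -/
def Small (B U W q : ℕ) {r L : ℕ} (α : Fin L → ℕ) (b h : Fin L → Fin r → ℕ) (θ : Fin L → ℕ → ℂ) (z : ℤ) : Prop :=
  ∀ y' : ℤ, |(y' : ℝ) - z| ≤ Real.log q ^ W → ∀ l, ∀ x : ℕ, (α l * x : ℝ) ≤ q * Real.log q ^ B →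
    ‖∑ n ∈ Icc 1 x, θ l n * (∏ i, (ArithmeticFunction.vonMangoldt (b l i * n + h l i) : ℂ)) * mob (α l * n + y')‖ ≤
      q / Real.log q ^ U

open Classical in
/-- **(1)** Let `κ ≠ 0`, `r`, `B`, `T`, `W`, `U` and `a` be fixed. There is a number `V` such that the following holds for
all large integers `q`. Let `y i`, `i ∈ s`, be a finite family of residues modulo `q` whose Fourier coefficients at the
nonzero frequencies are at most `|s| / log ^ V q`, and let `|c| ≤ q log ^ a q`. For each of at most `(log q) ^ T` indices `l`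
let `α l ≥ 1`, let `b l i n + h l i` for `i < r` be arbitrary linear forms with non-negative coefficients `≤ q ^ B`, and let
`θ l : ℕ → ℂ` be an arbitrary function bounded by `1` (for example `r = 1`, `Λ(n)` and `θ l = 1`). Then all the `i ∈ s`, with
at most `|s| / log ^ U q` exceptions, have the following property: all the shifts `y'` at a distance of at most
`(log q) ^ W` from `c + κ y_i` (with the least residue `0 ≤ y_i < q`) satisfy
`|∑ m ≤ x, θ l m * (∏ i, Λ (b l i * m + h l i)) * μ (α l * m + y')| ≤ q / (log q) ^ U` for all `l` and all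
`x ≤ q (log q) ^ B / α l`.

**(2)**, **(3)** Examples. The condition of (1) holds modulo all large primes `p` for:
* the quotients `j / r` of the integers `0 ≤ j < S` by the primes `r ≤ R`, if `log ^ (V + 4) p ≤ R < p` and `R ^ 2 ≤ S`; thus
  there are such explicit sets with only `log ^ (3 V + 12) p` members, and the estimate holds for all the shifts around almost
  all members of all their translates;
* the cosets of all subgroups of the multiplicative group of an order of at least `p ^ (3/8) log ^ (3 V + 1) p`;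
* the residues `a b + g(a) + k(b)`, `a ∈ A`, `b ∈ B`, for arbitrary sets with `|A| |B| ≥ p log ^ (2 V) p` and arbitrary
  functions `g` and `k`;
* the values `f(n)`, `0 ≤ n < x`, of all integer polynomials of degree `d` whose leading coefficient is not divisible by
  `p`, if `x ^ d ≥ p log ^ C p`, where `C` depends on `d` and `V`. -/
theorem result :
    (∀ (κ : ℤ), κ ≠ 0 → ∀ (r B T W U a : ℕ), ∃ V q₀ : ℕ, ∀ q : ℕ, q₀ ≤ q → ∀ [NeZero q]
      (ι : Type) (s : Finset ι) (y : ι → ZMod q), Flat q (1 / Real.log q ^ V) s y →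
      ∀ c : ℤ, |(c : ℝ)| ≤ q * Real.log q ^ a →
      ∀ L : ℕ, (L : ℝ) ≤ Real.log q ^ T → ∀ (α : Fin L → ℕ) (b h : Fin L → Fin r → ℕ) (θ : Fin L → ℕ → ℂ),
      (∀ l, 1 ≤ α l) → (∀ l i, b l i ≤ q ^ B ∧ h l i ≤ q ^ B) → (∀ l n, ‖θ l n‖ ≤ 1) →
        ((s.filter fun i => ¬ Small B U W q α b h θ (c + κ * ((y i).val : ℕ))).card : ℝ) ≤ s.card / Real.log q ^ U) ∧
    (∀ V : ℕ, ∃ P₀ : ℕ, ∀ p : ℕ, P₀ ≤ p → ∀ [Fact p.Prime],
      (∀ R S : ℕ, Real.log p ^ (V + 4) ≤ R → R < p → R ^ 2 ≤ S →
        Flat p (1 / Real.log p ^ V) (((Icc 1 R).filter Nat.Prime) ×ˢ range S)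
          (fun z => ((z.2 : ℕ) : ZMod p) * ((z.1 : ℕ) : ZMod p)⁻¹)) ∧
      (∀ (H : Subgroup (ZMod p)ˣ) (s : Finset (ZMod p)ˣ), (∀ u, u ∈ s ↔ u ∈ H) →
        (p : ℝ) ^ (3 / 8 : ℝ) * Real.log p ^ (3 * V + 1) ≤ s.card → ∀ x : ZMod p, x ≠ 0 →
        Flat p (1 / Real.log p ^ V) s (fun u => x * (u : ZMod p))) ∧
      (∀ (A B : Finset (ZMod p)) (g k : ZMod p → ZMod p), (p : ℝ) * Real.log p ^ (2 * V) ≤ A.card * B.card →
        Flat p (1 / Real.log p ^ V) (A ×ˢ B) (fun z => z.1 * z.2 + g z.1 + k z.2))) ∧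
    (∀ d V : ℕ, 1 ≤ d → ∃ C P₀ : ℕ, ∀ p : ℕ, P₀ ≤ p → ∀ [Fact p.Prime] (f : Polynomial ℤ), f.natDegree = d →
      ¬ (p : ℤ) ∣ f.leadingCoeff → ∀ x : ℕ, (p : ℝ) * Real.log p ^ C ≤ (x : ℝ) ^ d →
      Flat p (1 / Real.log p ^ V) (range x) (fun n => ((f.eval (n : ℤ) : ℤ) : ZMod p))) := by
  refine ⟨fun κ hκ r B T W U a => ?_, fun V => ?_, fun d V hd => ?_⟩
  · obtain ⟨V, q₀, h0⟩ := Pool.Agent.N384.MQ.mq_mob κ hκ r B T W U a
    exact ⟨V, q₀, fun q hq _ ι s y hf c hc L hL α b h θ h1 h2 h3 => h0 q hq ι s y hf c hc L hL α b h θ h1 h2 h3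
      (Small B U W q α b h θ) fun z hz => hz⟩
  · obtain ⟨P₁, h1⟩ := Pool.Agent.N384.MQ.flat_quot V
    obtain ⟨P₂, h2⟩ := Pool.Agent.N384.MQ.flat_coset V
    obtain ⟨P₃, h3⟩ := Pool.Agent.N384.MQ.flat_prod V
    exact ⟨P₁ + P₂ + P₃, fun p hp _ => ⟨fun R S => h1 p (by omega) R S, fun H s => h2 p (by omega) H s,
      fun A B g k => h3 p (by omega) A B g k⟩⟩
  · exact Pool.Agent.N384.MQ.flat_poly d V hd

end Pool.Agent.Results.MP_0bfb7f_nt.ResidueFamilies
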