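import Pool.Agent.N469.TL.Corr

/-!
# The Möbius function and shifted primes, for all the shifts near almost all smooth numbers

Nothing is used besides Mathlib in the statement.

The proof combines an elementary bound for the exponential sum over the integers composed of primes from a given set
(`Pool.Agent.N469.SQ.exp_alt`: it is large only near few rational numbers with small denominators) with the second moment
method of the starting files for correlations of the Möbius function (`Pool.Agent.Y885.tl_probZ`).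
-/

set_option autoImplicit false

namespace Pool.Agent.Results.MP_0bfb7f_nt.SmoothShifts

open Finset

/-- The Möbius function on the integers, `0` at the integers `m ≤ 0`, with complex values. -/
noncomputable def mob (m : ℤ) : ℂ := if 1 ≤ m then ((ArithmeticFunction.moebius m.toNat : ℤ) : ℂ) else 0

/-- `|∑ n ≤ x, θ l n * (∏ i, Λ (a l i * n + h l i)) * μ (α l * n + z)| ≤ ε` for all `l` and all `x ≤ X / α l`. -/
def Small (X : ℕ) (ε : ℝ) {s L : ℕ} (α : Fin L → ℕ) (a h : Fin L → Fin s → ℕ) (θ : Fin L → ℕ → ℂ) (z : ℤ) : Prop :=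
  ∀ l, ∀ x : ℕ, α l * x ≤ X →
    ‖∑ n ∈ Icc 1 x, θ l n * (∏ i, (ArithmeticFunction.vonMangoldt (a l i * n + h l i) : ℂ)) * mob (α l * n + z)‖ ≤ ε

/-- The integers `1 ≤ v ≤ N` all of whose prime factors belong to `P`. -/
def composedOf (P : Finset ℕ) (N : ℕ) : Finset ℕ := (Icc 1 N).filter fun v => v.primeFactors ⊆ P

/-- The `y`-smooth integers `1 ≤ v ≤ N`: the integers all of whose prime factors are at most `y`. -/
def smooth (y N : ℕ) : Finset ℕ := (Icc 1 N).filter fun v => ∀ p ∈ v.primeFactors, p ≤ y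

lemma vm_log (B : ℕ) : ∃ N₀ : ℕ, ∀ N : ℕ, N₀ ≤ N → ∀ a h n : ℕ, a ≤ N ^ B → h ≤ N ^ B → n ≤ B * N →
    |ArithmeticFunction.vonMangoldt (a * n + h)| ≤ Real.log N ^ 2 := by
  obtain ⟨n1, h1⟩ := Pool.Agent.H373R2.T7.ev_L' ((B : ℝ) + 3)
  refine ⟨n1 + B + 3, fun N hN a h n ha hh hn => ?_⟩
  rw [abs_of_nonneg ArithmeticFunction.vonMangoldt_nonneg]
  refine ArithmeticFunction.vonMangoldt_le_log.trans ?_
  have hL := h1 N (by omega)
  have hB0 : (0 : ℝ) ≤ B := Nat.cast_nonneg B
  have e1 : a * n + h ≤ N ^ (B + 3) := by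
    calc a * n + h ≤ N ^ B * (B * N) + N ^ B := add_le_add (Nat.mul_le_mul ha hn) hh
      _ ≤ N ^ B * (N * N) + N ^ B * (N * N) := by
          apply add_le_add
          · exact Nat.mul_le_mul_left _ (Nat.mul_le_mul_right _ (by omega))
          · exact Nat.le_mul_of_pos_right _ (Nat.mul_pos (by omega) (by omega))
      _ = N ^ B * (2 * (N * N)) := by ring
      _ ≤ N ^ B * (N * (N * N)) := Nat.mul_le_mul_left _ (Nat.mul_le_mul_right _ (by omega))
      _ = _ := by ring
  rcases Nat.eq_zero_or_pos (a * n + h) with h0 | h0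
  · rw [h0]
    simp only [Nat.cast_zero, Real.log_zero]
    positivity
  · have e2 : Real.log ((a * n + h : ℕ) : ℝ) ≤ Real.log ((N ^ (B + 3) : ℕ) : ℝ) :=
      Real.log_le_log (by exact_mod_cast h0) (by exact_mod_cast e1)
    refine e2.trans ?_
    rw [Nat.cast_pow, Real.log_pow, pow_two]
    push_cast
    exact mul_le_mul_of_nonneg_right hL (by linarith)

open Classical in
/-- Let `s`, `A`, `T`, `U`, `K`, `B`, the integer `κ ≠ 0` and `δ > 0` be fixed, let `N` be large, `1 ≤ y ≤ log ^ K N`, and let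
`c` be an arbitrary integer with `|c| ≤ B N`. For each of at most `log ^ T N` indices `l` let `α l ≥ 1`, let
`a l i n + h l i` for `i < s` be arbitrary linear forms with non-negative coefficients `≤ N ^ B`, and let `θ l : ℕ → ℂ` be an
arbitrary function bounded by `1` (for example one index, `α = 1`, `s = 1`, `Λ(n)` and `θ = 1`).

(1) Let `P` be an arbitrary set of primes which are at most `y`, with at least `y ^ (1 / 2 + δ) log N` elements. Then
for all the integers `v ≤ N` composed of primes from `P`, up to a proportion of at most `1 / log ^ U N` of them, ALL the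
integers `z` with `|z - (c + κ v)| ≤ log ^ A N` have the following property:
`|∑ n ≤ x, θ l n * (∏ i, Λ (a l i * n + h l i)) * μ (α l * n + z)| ≤ N / log ^ U N` for all `l` and all `x ≤ B N / α l`.
(There can be as few as about `N ^ (1 / 2 + δ)` such integers `v`.)

(2) In particular this holds for all the `y`-smooth integers `v ≤ N`, up to a proportion of at most `1 / log ^ U N` of them,
if `y ≥ log ^ (2 + δ) N`. -/
theorem result (s A T U K B : ℕ) (κ : ℤ) (hκ : κ ≠ 0) (δ : ℝ) (hδ : 0 < δ) :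
    ∃ N₀ : ℕ, ∀ N, N₀ ≤ N → ∀ y : ℕ, 1 ≤ y → (y : ℝ) ≤ Real.log N ^ K → ∀ c : ℤ, |c| ≤ B * N →
      ∀ L : ℕ, (L : ℝ) ≤ Real.log N ^ T → ∀ (α : Fin L → ℕ) (a h : Fin L → Fin s → ℕ) (θ : Fin L → ℕ → ℂ),
        (∀ l, 1 ≤ α l) → (∀ l i, a l i ≤ N ^ B ∧ h l i ≤ N ^ B) → (∀ l n, ‖θ l n‖ ≤ 1) →
      (∀ P : Finset ℕ, (∀ p ∈ P, p.Prime ∧ p ≤ y) → (y : ℝ) ^ (1 / 2 + δ) * Real.log N ≤ P.card →
        (((composedOf P N).filter fun v : ℕ => ∃ z : ℤ, |((z - (c + κ * v) : ℤ) : ℝ)| ≤ Real.log N ^ A ∧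
          ¬ Small (B * N) (N / Real.log N ^ U) α a h θ z).card : ℝ) ≤ ((composedOf P N).card : ℝ) / Real.log N ^ U) ∧
      (Real.log N ^ (2 + δ) ≤ y →
        (((smooth y N).filter fun v : ℕ => ∃ z : ℤ, |((z - (c + κ * v) : ℤ) : ℝ)| ≤ Real.log N ^ A ∧
          ¬ Small (B * N) (N / Real.log N ^ U) α a h θ z).card : ℝ) ≤ ((smooth y N).card : ℝ) / Real.log N ^ U) := by
  obtain ⟨N₁, h1⟩ := vm_log B
  obtain ⟨N₂, h2⟩ := Pool.Agent.H373R2.T7.ev_L' 1
  obtain ⟨N₀, h0⟩ := Pool.Agent.N469.TL.both δ hδ K U _ (Pool.Agent.N469.TL.sm_corr κ hκ K B A (T + 2 * s) U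
    Pool.Agent.H373R2.T7.muR Pool.Agent.Y885.fine_mu)
  refine ⟨N₀ + N₁ + N₂, fun N hN y hy hy' c hc L hL α a h θ hα hah hθ => ?_⟩
  have hL1 := h2 N (by omega)
  refine h0 N (by omega) y hy hy' (fun v : ℕ => ∃ z : ℤ, |((z - (c + κ * v) : ℤ) : ℝ)| ≤ Real.log N ^ A ∧
          ¬ Small (B * N) (N / Real.log N ^ U) α a h θ z) (fun v => inferInstance)
    ⟨c, L, α, fun l n => θ l n * ∏ i, (ArithmeticFunction.vonMangoldt (a l i * n + h l i) : ℂ), hc,
      hL.trans (pow_le_pow_right₀ hL1 (by omega)), hα, fun l n hn hnB => ?_, fun v hv => ?_⟩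
  · have hnB' : n ≤ B * N := (Nat.le_mul_of_pos_left n (by have := hα l; omega)).trans hnB
    rw [norm_mul, norm_prod]
    have e1 : ∏ i, ‖(ArithmeticFunction.vonMangoldt (a l i * n + h l i) : ℂ)‖ ≤ ∏ _i : Fin s, Real.log N ^ 2 := by
      apply prod_le_prod (fun _ _ => norm_nonneg _)
      intro i _
      rw [Complex.norm_real, Real.norm_eq_abs]
      exact h1 N (by omega) _ _ n (hah _ i).1 (hah _ i).2 hnB'
    rw [prod_const, card_univ, Fintype.card_fin, ← pow_mul] at e1
    calc _ ≤ 1 * Real.log N ^ (2 * s) := mul_le_mul (hθ _ _) e1 (prod_nonneg fun _ _ => norm_nonneg _) zero_le_one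
      _ = Real.log N ^ (2 * s) := one_mul _
      _ ≤ _ := pow_le_pow_right₀ hL1 (by omega)
  · obtain ⟨z, hz, hbad⟩ := hv
    have e0 : c + κ * (v : ℤ) + (z - (c + κ * v)) = z := by ring
    refine ⟨z - (c + κ * v), hz, ?_⟩
    rw [e0]
    unfold Small at hbad
    push Not at hbad
    obtain ⟨l, x, hx, hlt⟩ := hbad
    refine ⟨l, x, hx, lt_of_lt_of_eq hlt ?_⟩
    congr 1

end Pool.Agent.Results.MP_0bfb7f_nt.SmoothShifts
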